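import Pool.Agent.Q301.CT.Wl

/-!
# A compact Hausdorff space with a cuf base that is not weakly Loeb

If there is a model of ZF, then there is a model of ZF with a compact Hausdorff space that has a
base which is a countable union of finite sets, and such that the family of its nonempty closed
subsets has no multiple choice function.

The space is a copy of the Cantor space in a symmetric extension in which only the isometries
are taken into account, with finite supports: the balls of a given size form a finite set, the
space is compact, but a multiple choice function would be invariant under all isometries that fix
the points of some finite set, and these move the points of a small ball in infinitely many ways.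
-/

namespace Pool.Agent.Results.MP_d8a1a0_gt.NotWeaklyLoeb

open FirstOrder FirstOrder.Language
open Pool.Agent.Helper672.Plain (LSet)
open Pool.Agent.H635Amen (ZF)
open Pool.Agent.H310Top

universe u

theorem result (h : ∃ (M : Type u) (_ : LSet.Structure M), ZF M) :
    ∃ (N : Type u) (_ : LSet.Structure N), ZF N ∧ ∃ x t b : N, IsTopology t x ∧ IsCompact t x ∧
      IsHausdorff t x ∧ IsBase b t ∧ IsCuf b ∧ ¬ IsWeaklyLoeb t x := by
  exact Pool.Agent.Q301.CT.pd8a1a0 h

end Pool.Agent.Results.MP_d8a1a0_gt.NotWeaklyLoeb
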